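import Mathlib

/-! Analytic continuation of Mellin transforms of smooth exponentially decaying functions
(written by helper930 for helper145). -/

open Complex Set Filter MeasureTheory Topology Asymptotics

namespace Pool.Agent.R145.BZ

/-- A tower of derivatives on `(0, ∞)`, each of them exponentially small. -/
structure Tower (g : ℕ → ℝ → ℂ) (c : ℝ) : Prop where
  pos : 0 < c
  hasDeriv : ∀ k, ∀ t ∈ Ioi (0:ℝ), HasDerivAt (g k) (g (k+1) t) t
  bound : ∀ k, ∃ C, ∀ t ∈ Ioi (0:ℝ), ‖g k t‖ ≤ C * Real.exp (-c*t)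

variable {g : ℕ → ℝ → ℂ} {c : ℝ}

theorem Tower.locInt (h : Tower g c) (k : ℕ) : LocallyIntegrableOn (g k) (Ioi 0) := by
  refine ContinuousOn.locallyIntegrableOn ?_ measurableSet_Ioi
  intro t ht
  exact ((h.hasDeriv k t ht).continuousAt).continuousWithinAt

theorem Tower.top (h : Tower g c) (k : ℕ) : (g k) =O[atTop] fun t => Real.exp (-c * t) := by
  obtain ⟨C, hC⟩ := h.bound k
  refine IsBigO.of_bound C ?_
  filter_upwards [eventually_gt_atTop 0] with t ht
  rw [Real.norm_of_nonneg (Real.exp_pos _).le]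
  exact hC t ht

theorem Tower.bot (h : Tower g c) (k : ℕ) : (g k) =O[𝓝[>] 0] (fun t : ℝ => t ^ (-(0:ℝ))) := by
  obtain ⟨C, hC⟩ := h.bound k
  refine IsBigO.of_bound C ?_
  filter_upwards [self_mem_nhdsWithin] with t ht
  have ht' : (0:ℝ) < t := ht
  have h1 : Real.exp (-c * t) ≤ 1 := by
    rw [Real.exp_le_one_iff]
    nlinarith [h.pos]
  have h2 := hC t ht
  have hC0 : 0 ≤ C := by
    by_contra hneg
    push Not at hneg
    have : C * Real.exp (-c * t) < 0 := mul_neg_of_neg_of_pos hneg (Real.exp_pos _)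
    linarith [norm_nonneg (g k t)]
  simp only [neg_zero, Real.rpow_zero, norm_one, mul_one]
  nlinarith

theorem Tower.conv (h : Tower g c) (k : ℕ) {s : ℂ} (hs : 0 < s.re) : MellinConvergent (g k) s :=
  mellinConvergent_of_isBigO_rpow_exp h.pos (h.locInt k) (h.top k) (h.bot k) hs

theorem Tower.diff (h : Tower g c) (k : ℕ) {s : ℂ} (hs : 0 < s.re) :
    DifferentiableAt ℂ (mellin (g k)) s :=
  mellin_differentiableAt_of_isBigO_rpow_exp h.pos (h.locInt k) (h.top k) (h.bot k) hs

theorem Tower.ibp (h : Tower g c) (k : ℕ) {s : ℂ} (hs : 0 < s.re) :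
    mellin (g (k+1)) (s + 1) = - s * mellin (g k) s := by
  have hs0 : s ≠ 0 := by
    intro h0
    rw [h0] at hs
    simp at hs
  have hu : ∀ x ∈ Ioi (0:ℝ), HasDerivAt (fun t : ℝ => (t:ℂ) ^ s) (s * (x:ℂ) ^ (s - 1)) x := by
    intro x hx
    have hx' : (x:ℝ) ≠ 0 := ne_of_gt hx
    exact hasDerivAt_ofReal_cpow_const hx' hs0
  have h1 : IntegrableOn ((fun t : ℝ => (t:ℂ) ^ s) * (g (k+1))) (Ioi 0) := by
    have := h.conv (k+1) (s := s + 1) (by simp; linarith)
    unfold MellinConvergent at this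
    refine this.congr_fun ?_ measurableSet_Ioi
    intro t _
    simp [smul_eq_mul]
  have h2 : IntegrableOn ((fun t : ℝ => s * (t:ℂ) ^ (s - 1)) * (g k)) (Ioi 0) := by
    have := (h.conv k hs).const_smul s
    unfold MellinConvergent at this
    refine this.congr_fun ?_ measurableSet_Ioi
    intro t _
    simp only [smul_eq_mul, Pi.mul_apply]
    ring
  obtain ⟨C, hC⟩ := h.bound k
  have hzero : Tendsto ((fun t : ℝ => (t:ℂ) ^ s) * (g k)) (𝓝[>] 0) (𝓝 0) := by
    rw [tendsto_zero_iff_norm_tendsto_zero]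
    have hlim : Tendsto (fun t : ℝ => t ^ s.re * C) (𝓝[>] 0) (𝓝 0) := by
      have : Tendsto (fun t : ℝ => t ^ s.re * C) (𝓝 0) (𝓝 ((0:ℝ) ^ s.re * C)) := by
        refine Tendsto.mul_const _ ?_
        exact (Real.continuousAt_rpow_const 0 s.re (Or.inr hs.le)).tendsto
      rw [Real.zero_rpow (ne_of_gt hs), zero_mul] at this
      exact this.mono_left nhdsWithin_le_nhds
    refine squeeze_zero' (Eventually.of_forall fun t => norm_nonneg _) ?_ hlim
    filter_upwards [self_mem_nhdsWithin] with t ht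
    have ht' : (0:ℝ) < t := ht
    rw [Pi.mul_apply, norm_mul, norm_cpow_eq_rpow_re_of_pos ht']
    have h1 : Real.exp (-c * t) ≤ 1 := by
      rw [Real.exp_le_one_iff]
      nlinarith [h.pos]
    have h2 := hC t ht
    have hC0 : 0 ≤ C := by
      by_contra hneg
      push Not at hneg
      have : C * Real.exp (-c * t) < 0 := mul_neg_of_neg_of_pos hneg (Real.exp_pos _)
      linarith [norm_nonneg (g k t)]
    have h3 : ‖g k t‖ ≤ C := by nlinarith
    exact mul_le_mul_of_nonneg_left h3 (Real.rpow_nonneg ht'.le _)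
  have hinf : Tendsto ((fun t : ℝ => (t:ℂ) ^ s) * (g k)) atTop (𝓝 0) := by
    rw [tendsto_zero_iff_norm_tendsto_zero]
    have hlim : Tendsto (fun t : ℝ => C * (t ^ s.re * Real.exp (-c * t))) atTop (𝓝 0) := by
      have := (tendsto_rpow_mul_exp_neg_mul_atTop_nhds_zero s.re c h.pos).const_mul C
      simpa using this
    refine squeeze_zero' (Eventually.of_forall fun t => norm_nonneg _) ?_ hlim
    filter_upwards [eventually_gt_atTop 0] with t ht
    have ht' : (0:ℝ) < t := ht
    rw [Pi.mul_apply, norm_mul, norm_cpow_eq_rpow_re_of_pos ht']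
    have h2 := hC t ht
    calc t ^ s.re * ‖g k t‖ ≤ t ^ s.re * (C * Real.exp (-c * t)) :=
          mul_le_mul_of_nonneg_left h2 (Real.rpow_nonneg ht'.le _)
      _ = C * (t ^ s.re * Real.exp (-c * t)) := by ring
  have key := integral_Ioi_mul_deriv_eq_deriv_mul hu (h.hasDeriv k) h1 h2 hzero hinf
  simp only [sub_zero, zero_sub] at key
  unfold mellin
  simp only [add_sub_cancel_right, smul_eq_mul]
  rw [key, ← integral_const_mul, ← integral_neg]
  refine integral_congr_ae (Eventually.of_forall fun t => ?_)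
  simp only
  ring

/-- The `k`-th expression for the continued quotient of the Mellin transform by the Gamma
function. -/
noncomputable def piece (g : ℕ → ℝ → ℂ) (k : ℕ) (u : ℂ) : ℂ :=
  (-1) ^ k * mellin (g k) (u + k) * (Gamma (u + k))⁻¹

theorem piece_succ (h : Tower g c) (k : ℕ) {u : ℂ} (hu : 0 < u.re + k) :
    piece g (k+1) u = piece g k u := by
  have hs : 0 < (u + k).re := by simpa using hu
  have hs0 : u + k ≠ 0 := by
    intro h0
    rw [h0] at hs
    simp at hs
  unfold piece
  have e1 : (u + ((k+1 : ℕ) : ℂ)) = (u + k) + 1 := by push_cast; ring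
  rw [e1, h.ibp k hs, Gamma_add_one _ hs0, mul_inv, pow_succ]
  field_simp

theorem piece_le (h : Tower g c) {k m : ℕ} (hkm : k ≤ m) {u : ℂ} (hu : 0 < u.re + k) :
    piece g m u = piece g k u := by
  induction m, hkm using Nat.le_induction with
  | base => rfl
  | succ m hm ih =>
    rw [piece_succ h m ?_, ih]
    have : (k:ℝ) ≤ m := by exact_mod_cast hm
    linarith

theorem piece_diff (h : Tower g c) (k : ℕ) {u : ℂ} (hu : 0 < u.re + k) :
    DifferentiableAt ℂ (piece g k) u := by
  have hs : 0 < (u + k).re := by simpa using hu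
  have hadd : DifferentiableAt ℂ (fun v : ℂ => v + k) u := differentiableAt_id.add_const _
  have h1 : DifferentiableAt ℂ (fun v : ℂ => mellin (g k) (v + k)) u :=
    DifferentiableAt.comp (f := fun v : ℂ => v + k) (g := mellin (g k)) u (h.diff k hs) hadd
  have h2 : DifferentiableAt ℂ (fun v : ℂ => (Gamma (v + k))⁻¹) u :=
    DifferentiableAt.comp (f := fun v : ℂ => v + k) (g := fun s : ℂ => (Gamma s)⁻¹) u
      (differentiable_one_div_Gamma (u + k)) hadd
  exact (h1.const_mul ((-1) ^ k)).mul h2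

theorem exists_entire (h : Tower g c) :
    ∃ E : ℂ → ℂ, Differentiable ℂ E ∧
      ∀ u : ℂ, 0 < u.re → E u = mellin (g 0) u * (Gamma u)⁻¹ := by
  let K : ℂ → ℕ := fun u => ⌈|u.re|⌉₊ + 1
  have hK : ∀ u : ℂ, 0 < u.re + K u := by
    intro u
    have h1 : |u.re| ≤ ⌈|u.re|⌉₊ := Nat.le_ceil _
    have h2 := neg_abs_le u.re
    simp only [K]
    push_cast
    linarith
  have hE : ∀ (u : ℂ) (k : ℕ), 0 < u.re + k → piece g (K u) u = piece g k u := by
    intro u k hk
    rw [← piece_le h (le_max_left (K u) k) (hK u), ← piece_le h (le_max_right (K u) k) hk]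
  refine ⟨fun u => piece g (K u) u, ?_, ?_⟩
  · intro u
    have hd := piece_diff h (K u) (hK u)
    refine hd.congr_of_eventuallyEq ?_
    have hopen : IsOpen {v : ℂ | 0 < v.re + K u} := by
      exact isOpen_lt continuous_const (continuous_re.add continuous_const)
    filter_upwards [hopen.mem_nhds (hK u)] with v hv
    exact hE v (K u) hv
  · intro u hu
    show piece g (K u) u = _
    rw [hE u 0 (by simpa using hu)]
    simp [piece]

end Pool.Agent.R145.BZ
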