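import Mathlib
import Pool.Agent.R145.BZ.ContA

/-! The generating function of the Barnes double zeta function with periods `1` and `a`
(written by helper930 for helper145). -/

open Complex Set Filter MeasureTheory Topology Asymptotics

namespace Pool.Agent.R145.BZ

/-- `(exp z - 1) / z`, extended by `1` at `0`. -/
noncomputable def phi (z : ℂ) : ℂ := dslope Complex.exp 0 z

theorem phi_diff : Differentiable ℂ phi := by
  have h := (Complex.differentiableOn_dslope (f := Complex.exp) (s := univ) (c := 0)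
    univ_mem).2 differentiable_exp.differentiableOn
  exact differentiableOn_univ.1 h

theorem phi_mul (z : ℂ) : z * phi z = Complex.exp z - 1 := by
  have h := sub_smul_dslope Complex.exp 0 z
  simpa [phi] using h

theorem phi_zero : phi 0 = 1 := by
  simp [phi, dslope_same, Complex.deriv_exp]

theorem phi_ne_zero {z : ℂ} (hz : |z.im| < 2 * Real.pi) : phi z ≠ 0 := by
  intro h0
  have h1 := phi_mul z
  rw [h0, mul_zero] at h1
  have h2 : Complex.exp z = 1 := by
    rw [← sub_eq_zero, ← h1]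
  rw [Complex.exp_eq_one_iff] at h2
  obtain ⟨n, hn⟩ := h2
  have him : z.im = n * (2 * Real.pi) := by
    rw [hn]
    simp
  have hn0 : n = 0 := by
    by_contra hne
    have h3 : (1:ℝ) ≤ |(n:ℝ)| := by
      have : (1:ℤ) ≤ |n| := Int.one_le_abs hne
      exact_mod_cast this
    rw [him, abs_mul, abs_of_pos Real.two_pi_pos] at hz
    nlinarith [Real.two_pi_pos]
  rw [hn0] at hn
  simp at hn
  rw [hn, phi_zero] at h0
  exact one_ne_zero h0

/-- The normalised generating function `z² e^(-az) / ((1 - e^(-z)) (1 - e^(-az)))`. -/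
noncomputable def GG (a : ℝ) (z : ℂ) : ℂ :=
  Complex.exp (-(a * z)) * (a * phi (-z) * phi (-(a * z)))⁻¹

/-- The strip on which it is holomorphic. -/
def strip (a : ℝ) : Set ℂ := {z : ℂ | |z.im| < 2 * Real.pi / a}

theorem strip_open (a : ℝ) : IsOpen (strip a) :=
  isOpen_lt (continuous_abs.comp continuous_im) continuous_const

theorem den_ne {a : ℝ} (ha : 1 < a) {z : ℂ} (hz : z ∈ strip a) :
    (a : ℂ) * phi (-z) * phi (-(a * z)) ≠ 0 := by
  have ha0 : (0:ℝ) < a := by linarith
  have hz' : |z.im| < 2 * Real.pi / a := hz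
  have h1 : |z.im| * a < 2 * Real.pi := by
    rwa [lt_div_iff₀ ha0] at hz'
  refine mul_ne_zero (mul_ne_zero ?_ ?_) ?_
  · exact_mod_cast ha0.ne'
  · refine phi_ne_zero ?_
    rw [neg_im, abs_neg]
    nlinarith [abs_nonneg z.im]
  · refine phi_ne_zero ?_
    rw [neg_im, abs_neg]
    have : ((a:ℂ) * z).im = a * z.im := by simp
    rw [this, abs_mul, abs_of_pos ha0]
    linarith

theorem GG_diff {a : ℝ} (ha : 1 < a) : DifferentiableOn ℂ (GG a) (strip a) := by
  intro z hz
  have h1 : DifferentiableAt ℂ (fun z : ℂ => Complex.exp (-((a:ℂ) * z))) z := by fun_prop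
  have h2 : DifferentiableAt ℂ (fun z : ℂ => phi (-z)) z :=
    (phi_diff (-z)).comp z (differentiableAt_id.neg)
  have h3 : DifferentiableAt ℂ (fun z : ℂ => phi (-((a:ℂ) * z))) z :=
    DifferentiableAt.comp (g := phi) (f := fun z : ℂ => -((a:ℂ) * z)) z
      (phi_diff (-((a:ℂ) * z))) (by fun_prop)
  have h4 : DifferentiableAt ℂ (fun z : ℂ => (a:ℂ) * phi (-z) * phi (-((a:ℂ) * z))) z :=
    (h2.const_mul _).mul h3
  exact (h1.mul (h4.inv (den_ne ha hz))).differentiableWithinAt

theorem GG_eq {a : ℝ} (ha : 1 < a) {z : ℂ} (hz : z ≠ 0) :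
    GG a z = z ^ 2 * (Complex.exp (-(a * z)) *
      ((1 - Complex.exp (-z)) * (1 - Complex.exp (-(a * z))))⁻¹) := by
  have ha0 : (a:ℂ) ≠ 0 := by
    have : a ≠ 0 := by linarith
    exact_mod_cast this
  have h1 : 1 - Complex.exp (-z) = z * phi (-z) := by
    have := phi_mul (-z)
    linear_combination this
  have h2 : 1 - Complex.exp (-(a * z)) = (a * z) * phi (-(a * z)) := by
    have := phi_mul (-(a * z))
    linear_combination this
  rw [h1, h2]
  unfold GG
  have : (z * phi (-z) * (a * z * phi (-(a * z))))⁻¹ = (z ^ 2)⁻¹ *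
      (a * phi (-z) * phi (-(a * z)))⁻¹ := by
    rw [← mul_inv]
    congr 1
    ring
  rw [this]
  have hz2 : z ^ 2 ≠ 0 := pow_ne_zero _ hz
  field_simp

/-- The bound for large real part. -/
theorem GG_large {a : ℝ} (ha : 1 < a) {z : ℂ} (h1 : 1 ≤ z.re) (h2 : |z.im| ≤ 1) :
    ‖GG a z‖ ≤ 128 * Real.exp (-(1/2) * z.re) := by
  have hz : z ≠ 0 := by
    intro h0
    rw [h0] at h1
    simp at h1
    linarith
  rw [GG_eq ha hz]
  have hlow : ∀ w : ℂ, 1 ≤ w.re → 1/2 ≤ ‖1 - Complex.exp (-w)‖ := by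
    intro w hw
    have h3 : ‖Complex.exp (-w)‖ ≤ 1/2 := by
      rw [Complex.norm_exp, neg_re]
      have h4 : Real.exp (-w.re) ≤ Real.exp (-1) := Real.exp_le_exp.2 (by linarith)
      have h5 : Real.exp (-1) ≤ 1/2 := by
        rw [Real.exp_neg]
        have := Real.add_one_le_exp (1:ℝ)
        rw [inv_le_comm₀ (Real.exp_pos _) (by norm_num)]
        linarith
      linarith
    have h6 := norm_sub_norm_le (1:ℂ) (Complex.exp (-w))
    rw [norm_one] at h6
    linarith
  have hA := hlow z h1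
  have haz : ((a:ℂ) * z).re = a * z.re := by simp
  have hB := hlow ((a:ℂ) * z) (by rw [haz]; nlinarith)
  have hnorm : ‖z‖ ≤ 2 * z.re := by
    have := Complex.norm_le_abs_re_add_abs_im z
    rw [abs_of_pos (by linarith : (0:ℝ) < z.re)] at this
    linarith
  have hexp : ‖Complex.exp (-((a:ℂ) * z))‖ ≤ Real.exp (-z.re) := by
    rw [Complex.norm_exp, neg_re, haz]
    exact Real.exp_le_exp.2 (by nlinarith)
  rw [norm_mul, norm_mul, norm_pow, norm_inv, norm_mul]
  have hinv : (‖1 - Complex.exp (-z)‖ * ‖1 - Complex.exp (-((a:ℂ) * z))‖)⁻¹ ≤ 4 := by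
    rw [inv_le_comm₀ (by positivity) (by norm_num)]
    nlinarith
  have hx : z.re ^ 2 * Real.exp (-z.re) ≤ 8 * Real.exp (-(1/2) * z.re) := by
    have h7 : z.re ^ 2 ≤ 8 * Real.exp ((1/2) * z.re) := by
      have := Real.quadratic_le_exp_of_nonneg (x := (1/2) * z.re) (by linarith)
      nlinarith
    have h8 : Real.exp (-z.re) * Real.exp ((1/2) * z.re) = Real.exp (-(1/2) * z.re) := by
      rw [← Real.exp_add]
      congr 1
      ring
    calc z.re ^ 2 * Real.exp (-z.re) ≤ (8 * Real.exp ((1/2) * z.re)) * Real.exp (-z.re) :=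
          mul_le_mul_of_nonneg_right h7 (Real.exp_pos _).le
      _ = 8 * (Real.exp (-z.re) * Real.exp ((1/2) * z.re)) := by ring
      _ = 8 * Real.exp (-(1/2) * z.re) := by rw [h8]
  have h9 : ‖z‖ ^ 2 ≤ 4 * z.re ^ 2 := by
    nlinarith [norm_nonneg z]
  calc ‖z‖ ^ 2 * (‖Complex.exp (-((a:ℂ) * z))‖ *
        (‖1 - Complex.exp (-z)‖ * ‖1 - Complex.exp (-((a:ℂ) * z))‖)⁻¹)
      ≤ (4 * z.re ^ 2) * (Real.exp (-z.re) * 4) := by
        refine mul_le_mul h9 ?_ (by positivity) (by positivity)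
        exact mul_le_mul hexp hinv (by positivity) (Real.exp_pos _).le
    _ = 16 * (z.re ^ 2 * Real.exp (-z.re)) := by ring
    _ ≤ 16 * (8 * Real.exp (-(1/2) * z.re)) := by linarith
    _ = 128 * Real.exp (-(1/2) * z.re) := by ring

theorem GG_bound {a : ℝ} (ha : 1 < a) : ∃ C : ℝ, 0 ≤ C ∧ ∀ z : ℂ, -1 ≤ z.re → |z.im| ≤ 1 / a →
    ‖GG a z‖ ≤ C * Real.exp (-(1/2) * z.re) := by
  have ha0 : (0:ℝ) < a := by linarith
  have hcpt : IsCompact ((Icc (-1:ℝ) 1) ×ℂ (Icc (-(1/a)) (1/a))) :=
    isCompact_Icc.reProdIm isCompact_Icc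
  have hcont : ContinuousOn (GG a) ((Icc (-1:ℝ) 1) ×ℂ (Icc (-(1/a)) (1/a))) := by
    refine (GG_diff ha).continuousOn.mono ?_
    intro z hz
    rw [mem_reProdIm] at hz
    have h1 : |z.im| ≤ 1/a := abs_le.2 ⟨hz.2.1, hz.2.2⟩
    have h2 : 1 / a < 2 * Real.pi / a := by
      apply div_lt_div_of_pos_right _ ha0
      linarith [Real.pi_gt_three]
    exact lt_of_le_of_lt h1 h2
  obtain ⟨C₁, hC₁⟩ := hcpt.exists_bound_of_continuousOn hcont
  refine ⟨max 128 (C₁ * Real.exp (1/2)), le_trans (by norm_num) (le_max_left _ _), ?_⟩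
  intro z hz1 hz2
  by_cases h : 1 ≤ z.re
  · have h3 : |z.im| ≤ 1 := hz2.trans (by rw [div_le_one ha0]; exact ha.le)
    refine (GG_large ha h h3).trans ?_
    exact mul_le_mul_of_nonneg_right (le_max_left _ _) (Real.exp_pos _).le
  · push Not at h
    have hmem : z ∈ ((Icc (-1:ℝ) 1) ×ℂ (Icc (-(1/a)) (1/a))) := by
      rw [mem_reProdIm]
      exact ⟨⟨hz1, h.le⟩, (abs_le.1 hz2).1, (abs_le.1 hz2).2⟩
    have h4 := hC₁ z hmem
    have h5 : 0 ≤ C₁ := (norm_nonneg _).trans h4
    have h6 : 1 ≤ Real.exp (1/2) * Real.exp (-(1/2) * z.re) := by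
      rw [← Real.exp_add]
      refine Real.one_le_exp ?_
      linarith
    calc ‖GG a z‖ ≤ C₁ * 1 := by linarith
      _ ≤ C₁ * (Real.exp (1/2) * Real.exp (-(1/2) * z.re)) := mul_le_mul_of_nonneg_left h6 h5
      _ = (C₁ * Real.exp (1/2)) * Real.exp (-(1/2) * z.re) := by ring
      _ ≤ _ := mul_le_mul_of_nonneg_right (le_max_right _ _) (Real.exp_pos _).le

theorem GG_iter_diff {a : ℝ} (ha : 1 < a) (k : ℕ) :
    DifferentiableOn ℂ (iteratedDeriv k (GG a)) (strip a) := by
  induction k with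
  | zero => simpa using GG_diff ha
  | succ k ih =>
    rw [iteratedDeriv_succ]
    exact ih.deriv (strip_open a)

theorem real_mem_strip {a : ℝ} (ha : 1 < a) (t : ℝ) : (t : ℂ) ∈ strip a := by
  have ha0 : (0:ℝ) < a := by linarith
  show |((t:ℂ)).im| < _
  rw [ofReal_im, abs_zero]
  exact div_pos Real.two_pi_pos ha0

theorem tower {a : ℝ} (ha : 1 < a) :
    Tower (fun k (t : ℝ) => iteratedDeriv k (GG a) (t : ℂ)) (1/2) := by
  have ha0 : (0:ℝ) < a := by linarith
  refine ⟨by norm_num, ?_, ?_⟩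
  · intro k t _
    have h1 : DifferentiableAt ℂ (iteratedDeriv k (GG a)) (t:ℂ) :=
      (GG_iter_diff ha k).differentiableAt ((strip_open a).mem_nhds (real_mem_strip ha t))
    have h2 := h1.hasDerivAt
    rw [← iteratedDeriv_succ] at h2
    exact h2.comp_ofReal
  · intro k
    obtain ⟨C, hC0, hC⟩ := GG_bound ha
    have hr : (0:ℝ) < 1 / a := by positivity
    have hr1 : 1 / a ≤ 1 := by rw [div_le_one ha0]; exact ha.le
    refine ⟨k.factorial * (C * Real.exp (1/2)) / (1/a) ^ k, ?_⟩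
    intro t ht
    have ht' : (0:ℝ) < t := ht
    have hball : ∀ z ∈ Metric.closedBall (t:ℂ) (1/a), t - 1/a ≤ z.re ∧ |z.im| ≤ 1/a := by
      intro z hz
      rw [Metric.mem_closedBall, dist_eq_norm] at hz
      constructor
      · have := (Complex.abs_re_le_norm (z - t)).trans hz
        rw [sub_re, ofReal_re, abs_le] at this
        linarith [this.1]
      · have := (Complex.abs_im_le_norm (z - t)).trans hz
        rwa [sub_im, ofReal_im, sub_zero] at this
    have hd : DiffContOnCl ℂ (GG a) (Metric.ball (t:ℂ) (1/a)) := by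
      refine DifferentiableOn.diffContOnCl ?_
      refine (GG_diff ha).mono ?_
      intro z hz
      have hz' := hball z (Metric.closure_ball_subset_closedBall hz)
      have h2 : 1 / a < 2 * Real.pi / a := by
        apply div_lt_div_of_pos_right _ ha0
        linarith [Real.pi_gt_three]
      exact lt_of_le_of_lt hz'.2 h2
    have hs : ∀ z ∈ Metric.sphere (t:ℂ) (1/a), ‖GG a z‖ ≤
        C * Real.exp (1/2) * Real.exp (-(1/2) * t) := by
      intro z hz
      have hz' := hball z (Metric.sphere_subset_closedBall hz)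
      refine (hC z (by linarith) hz'.2).trans ?_
      rw [mul_assoc, ← Real.exp_add]
      refine mul_le_mul_of_nonneg_left (Real.exp_le_exp.2 ?_) hC0
      linarith
    have := Complex.norm_iteratedDeriv_le_of_forall_mem_sphere_norm_le k hr hd hs
    refine this.trans (le_of_eq ?_)
    ring

end Pool.Agent.R145.BZ
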