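import Mathlib
import Pool.Agent.R145.BZ.ContB

/-! Analytic continuation of the Barnes double zeta function with periods `1` and `a`
(written by helper930 for helper145). -/

open Complex Set Filter MeasureTheory Topology Asymptotics

namespace Pool.Agent.R145.BZ

theorem lam_pos {a : ℝ} (ha : 1 < a) (p : ℕ × ℕ) : 0 < a + p.1 + p.2 * a := by
  have h1 : (0:ℝ) ≤ p.1 := Nat.cast_nonneg _
  have h2 : (0:ℝ) ≤ p.2 := Nat.cast_nonneg _
  nlinarith

theorem lam_summable {a : ℝ} (ha : 1 < a) {σ : ℝ} (hσ : 2 < σ) :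
    Summable fun p : ℕ × ℕ => ‖(1:ℂ)‖ / (a + p.1 + p.2 * a) ^ σ := by
  have h0 : Summable fun n : ℕ => ((n:ℝ) + 1) ^ (-(σ/2)) := by
    have h := (Real.summable_nat_rpow (p := -(σ/2))).2 (by linarith)
    have := (summable_nat_add_iff 1).2 h
    simpa using this
  have h1 : Summable fun p : ℕ × ℕ => ((p.1:ℝ) + 1) ^ (-(σ/2)) * ((p.2:ℝ) + 1) ^ (-(σ/2)) :=
    h0.mul_of_nonneg h0 (fun n => by positivity) (fun n => by positivity)
  refine Summable.of_nonneg_of_le (fun p => ?_) (fun p => ?_) h1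
  · have := lam_pos ha p
    positivity
  · have hx : (0:ℝ) ≤ p.1 := Nat.cast_nonneg _
    have hy : (0:ℝ) ≤ p.2 := Nat.cast_nonneg _
    have hl := lam_pos ha p
    rw [norm_one, one_div, ← Real.rpow_neg hl.le, ← Real.mul_rpow (by positivity) (by positivity)]
    have hsq : ((p.1:ℝ) + 1) * ((p.2:ℝ) + 1) ≤ (a + p.1 + p.2 * a) ^ 2 := by
      nlinarith [mul_nonneg hx hy, mul_nonneg hy (sub_nonneg.2 ha.le)]
    have e1 : (a + p.1 + p.2 * a) ^ (-σ) = ((a + p.1 + p.2 * a) ^ 2) ^ (-(σ/2)) := by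
      rw [← Real.rpow_natCast, ← Real.rpow_mul hl.le]
      congr 1
      push_cast
      ring
    rw [e1]
    exact Real.rpow_le_rpow_of_nonpos (by positivity) hsq (by linarith)

theorem exp_hasSum {a : ℝ} (ha : 1 < a) {t : ℝ} (ht : 0 < t) :
    HasSum (fun p : ℕ × ℕ => (1:ℂ) * (Real.exp (-(a + p.1 + p.2 * a) * t) : ℝ))
      (Complex.exp (-(a * t)) *
        ((1 - Complex.exp (-t)) * (1 - Complex.exp (-(a * t))))⁻¹) := by
  have hx0 : 0 ≤ Real.exp (-t) := (Real.exp_pos _).le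
  have hx1 : Real.exp (-t) < 1 := by
    rw [Real.exp_lt_one_iff]
    linarith
  have hy0 : 0 ≤ Real.exp (-(a * t)) := (Real.exp_pos _).le
  have hy1 : Real.exp (-(a * t)) < 1 := by
    rw [Real.exp_lt_one_iff]
    nlinarith
  have h1 := hasSum_geometric_of_lt_one hx0 hx1
  have h2 := hasSum_geometric_of_lt_one hy0 hy1
  have h3 := h1.mul h2 (h1.summable.mul_of_nonneg h2.summable
    (fun n => pow_nonneg hx0 n) (fun n => pow_nonneg hy0 n))
  have h4 := (h3.mul_left (Real.exp (-(a * t))))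
  have h5 := (Complex.hasSum_ofReal (f := _)).2 h4
  convert h5 using 1
  · funext p
    rw [one_mul]
    congr 1
    rw [← Real.exp_nat_mul, ← Real.exp_nat_mul, ← Real.exp_add, ← Real.exp_add]
    congr 1
    ring
  · push_cast
    rw [mul_inv]

theorem mellin_eq {a : ℝ} (ha : 1 < a) {s : ℂ} (hs : 2 < s.re) :
    mellin (fun t : ℝ => iteratedDeriv 0 (GG a) (t:ℂ)) (s - 2) =
      Gamma s * ∑' p : ℕ × ℕ, (((a + p.1 + p.2 * a : ℝ)) : ℂ) ^ (-s) := by
  have h1 := hasSum_mellin (a := fun _ : ℕ × ℕ => (1:ℂ))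
    (p := fun p : ℕ × ℕ => a + p.1 + p.2 * a)
    (F := fun t : ℝ => Complex.exp (-(a * t)) *
        ((1 - Complex.exp (-t)) * (1 - Complex.exp (-(a * t))))⁻¹) (s := s)
    (fun p => Or.inr (lam_pos ha p)) (by linarith)
    (fun t ht => exp_hasSum ha ht) (lam_summable ha hs)
  have h2 := mellin_cpow_smul (fun t : ℝ => Complex.exp (-(a * t)) *
        ((1 - Complex.exp (-t)) * (1 - Complex.exp (-(a * t))))⁻¹) (s - 2) 2
  rw [sub_add_cancel] at h2
  have h3 : mellin (fun t : ℝ => iteratedDeriv 0 (GG a) (t:ℂ)) (s - 2) =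
      mellin (fun t : ℝ => (t:ℂ) ^ (2:ℂ) • (Complex.exp (-(a * t)) *
        ((1 - Complex.exp (-t)) * (1 - Complex.exp (-(a * t))))⁻¹)) (s - 2) := by
    unfold mellin
    refine setIntegral_congr_fun measurableSet_Ioi ?_
    intro t ht
    have ht0 : (t:ℂ) ≠ 0 := by
      have : t ≠ 0 := ne_of_gt ht
      exact_mod_cast this
    simp only [iteratedDeriv_zero, smul_eq_mul]
    rw [GG_eq ha ht0]
    congr 2
    norm_num
  rw [h3, h2, ← h1.tsum_eq, ← tsum_mul_left]
  congr 1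
  funext p
  rw [mul_one, cpow_neg, div_eq_mul_inv]

theorem exists_continuation (a : ℝ) (ha : 1 < a) :
    ∃ F : ℂ → ℂ, DifferentiableOn ℂ F {s | s ≠ 1 ∧ s ≠ 2} ∧
      ∀ s : ℂ, 2 < s.re → F s = ∑' p : ℕ × ℕ, (((a + p.1 + p.2 * a : ℝ)) : ℂ) ^ (-s) := by
  obtain ⟨E, hE, hE2⟩ := exists_entire (tower ha)
  refine ⟨fun s => E (s - 2) * ((s - 1) * (s - 2))⁻¹, ?_, ?_⟩
  · intro s hs
    have h1 : (s - 1) * (s - 2) ≠ 0 := mul_ne_zero (sub_ne_zero.2 hs.1) (sub_ne_zero.2 hs.2)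
    have h2 : DifferentiableAt ℂ (fun s : ℂ => E (s - 2)) s :=
      DifferentiableAt.comp (g := E) (f := fun s : ℂ => s - 2) s (hE (s - 2)) (by fun_prop)
    have h3 : DifferentiableAt ℂ (fun s : ℂ => ((s - 1) * (s - 2))) s := by fun_prop
    exact (h2.mul (h3.inv h1)).differentiableWithinAt
  · intro s hs
    have hre : 0 < (s - 2).re := by
      simp
      linarith
    show E (s - 2) * ((s - 1) * (s - 2))⁻¹ = _
    rw [hE2 (s - 2) hre, mellin_eq ha hs]
    have hs2 : s - 2 ≠ 0 := by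
      intro h0
      rw [h0] at hre
      simp at hre
    have hs1 : s - 1 ≠ 0 := by
      intro h0
      have : s = 1 := sub_eq_zero.1 h0
      rw [this, one_re] at hs
      linarith
    have hG1 : Gamma s = (s - 1) * Gamma (s - 1) := by
      have := Gamma_add_one (s - 1) hs1
      rwa [sub_add_cancel] at this
    have hG2 : Gamma (s - 1) = (s - 2) * Gamma (s - 2) := by
      have := Gamma_add_one (s - 2) hs2
      have e : s - 2 + 1 = s - 1 := by ring
      rwa [e] at this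
    have hG0 : Gamma (s - 2) ≠ 0 := Gamma_ne_zero_of_re_pos hre
    rw [hG1, hG2]
    field_simp

end Pool.Agent.R145.BZ
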